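import Pool.Agent.L7h32.OS.Stm

set_option autoImplicit false

/-!
# Project OS, part CPT: the pieces without points at infinity are compact
-/

namespace Pool.Agent.L7h76.OS

open MvPolynomial
open Pool.Agent.L7h17.OC
open Pool.Agent.L7h32.OS

/-- the point of the chart `z = 1` -/
def emb (p : ℝ × ℝ) : Fin 3 → ℝ := ![p.1, p.2, 1]

theorem emb_two (p : ℝ × ℝ) : emb p 2 = 1 := rfl

theorem emb_ne (p : ℝ × ℝ) : emb p ≠ 0 := by
  intro h
  have := congrFun h 2
  rw [emb_two] at this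
  exact one_ne_zero this

theorem emb_cont : Continuous emb := by
  unfold emb
  refine continuous_pi fun i => ?_
  fin_cases i
  · exact continuous_fst
  · exact continuous_snd
  · exact continuous_const

theorem eval_emb {F : MvPolynomial (Fin 3) ℝ} {a b : ℕ → ℝ} (h : Sep F a b) (p : ℝ × ℝ) :
    eval (emb p) F = (pol a).eval p.1 + (pol b).eval p.2 := by
  rw [h]
  unfold pol
  rw [Polynomial.eval_finsetSum, Polynomial.eval_finsetSum, map_sum, ← Finset.sum_add_distrib]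
  refine Finset.sum_congr rfl fun i _ => ?_
  simp [emb]

theorem s_CPT : S_CPT := by
  intro F a b k C hF hC i hi
  obtain ⟨hne, hdis, hun, hsc, hcl⟩ := hC
  have hK : ∀ j, {p : ℝ × ℝ | ![p.1, p.2, 1] ∈ C j} = emb ⁻¹' (C j) := fun j => rfl
  rw [hK]
  have hmem : ∀ p, (∃ j, emb p ∈ C j) ↔ p ∈ Z (pol a) (pol b) := by
    intro p
    rw [← Set.mem_iUnion, hun]
    show (emb p ≠ 0 ∧ eval (emb p) F = 0) ↔ (pol a).eval p.1 + (pol b).eval p.2 = 0
    rw [eval_emb hF]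
    exact ⟨fun h => h.2, fun h => ⟨emb_ne p, h⟩⟩
  have hclosed : ∀ j, IsClosed (emb ⁻¹' (C j)) := by
    intro j
    obtain ⟨K', hK', e⟩ := hcl j
    have : emb ⁻¹' (C j) = emb ⁻¹' K' := by
      rw [e]
      ext p
      exact ⟨fun h => h.1, fun h => ⟨h, emb_ne p⟩⟩
    rw [this]
    exact hK'.preimage emb_cont
  have hnon : (emb ⁻¹' (C i)).Nonempty := by
    obtain ⟨v, hv⟩ := hne i
    have h2 := hi v hv
    refine ⟨((v 2)⁻¹ * v 0, (v 2)⁻¹ * v 1), ?_⟩
    have h3 := hsc i v hv (v 2)⁻¹ (inv_ne_zero h2)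
    have h4 : emb ((v 2)⁻¹ * v 0, (v 2)⁻¹ * v 1) = (v 2)⁻¹ • v := by
      funext j
      fin_cases j
      · rfl
      · rfl
      · show (1 : ℝ) = (v 2)⁻¹ * v 2
        rw [inv_mul_cancel₀ h2]
    rw [Set.mem_preimage, h4]
    exact h3
  refine ⟨hnon, ?_, fun p hp => (hmem p).1 ⟨i, hp⟩, ?_⟩
  · -- compact
    obtain ⟨K', hK', e⟩ := hcl i
    have hS : IsCompact (C i ∩ Metric.sphere (0 : Fin 3 → ℝ) 1) := by
      have : C i ∩ Metric.sphere (0 : Fin 3 → ℝ) 1 = K' ∩ Metric.sphere (0 : Fin 3 → ℝ) 1 := by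
        rw [e]
        ext v
        refine ⟨fun h => ⟨h.1.1, h.2⟩, fun h => ⟨⟨h.1, ?_⟩, h.2⟩⟩
        rintro rfl
        have := h.2
        simp at this
      rw [this]
      exact (isCompact_sphere _ _).inter_left hK'
    have hnorm : ∀ p, emb p ∈ C i → ‖emb p‖⁻¹ • emb p ∈ C i ∩ Metric.sphere (0 : Fin 3 → ℝ) 1 := by
      intro p hp
      have h1 : ‖emb p‖ ≠ 0 := norm_ne_zero_iff.2 (emb_ne p)
      refine ⟨hsc i _ hp _ (inv_ne_zero h1), ?_⟩
      rw [mem_sphere_zero_iff_norm, norm_smul, norm_inv, norm_norm, inv_mul_cancel₀ h1]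
    obtain ⟨q, hq⟩ := hnon
    obtain ⟨w, hw, hmin⟩ := hS.exists_isMinOn ⟨_, hnorm q hq⟩
      (f := fun v : Fin 3 → ℝ => |v 2|) (continuous_abs.comp (continuous_apply 2)).continuousOn
    have hd : 0 < |w 2| := abs_pos.2 (hi w hw.1)
    have hb : ∀ p, emb p ∈ C i → ‖emb p‖ ≤ |w 2|⁻¹ := by
      intro p hp
      have h1 : 0 < ‖emb p‖ := norm_pos_iff.2 (emb_ne p)
      have h2 : |w 2| ≤ |(‖emb p‖⁻¹ • emb p) 2| := hmin (hnorm p hp)
      have h3 : (‖emb p‖⁻¹ • emb p) 2 = ‖emb p‖⁻¹ := by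
        rw [Pi.smul_apply, emb_two, smul_eq_mul, mul_one]
      rw [h3, abs_of_pos (inv_pos.2 h1)] at h2
      exact (le_inv_comm₀ hd h1).1 h2
    refine Metric.isCompact_of_isClosed_isBounded (hclosed i) ?_
    refine (Metric.isBounded_closedBall (x := (0 : ℝ × ℝ)) (r := |w 2|⁻¹)).subset fun p hp => ?_
    rw [mem_closedBall_zero_iff, Prod.norm_def]
    refine max_le ?_ ?_
    · exact (norm_le_pi_norm (emb p) 0).trans (hb p hp)
    · exact (norm_le_pi_norm (emb p) 1).trans (hb p hp)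
  · -- the complement
    have h1 : Z (pol a) (pol b) \ emb ⁻¹' (C i) = ⋃ j ∈ {j : Fin k | j ≠ i}, emb ⁻¹' (C j) := by
      ext p
      rw [Set.mem_iUnion₂]
      constructor
      · rintro ⟨h, h'⟩
        obtain ⟨j, hj⟩ := (hmem p).2 h
        exact ⟨j, fun e => h' (e ▸ hj), hj⟩
      · rintro ⟨j, hj, hp⟩
        exact ⟨(hmem p).1 ⟨j, hp⟩, fun h => Set.disjoint_left.1 (hdis j i hj) hp h⟩
    rw [h1]
    exact (Set.toFinite _).isClosed_biUnion fun j _ => hclosed j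

end Pool.Agent.L7h76.OS
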